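import Pool.Agent.EGF.StmtsP

/-! Squad EGF (MP_1090a0_co), row CLS2 (helper62): all steps after the record set. -/

set_option autoImplicit false

open Finset

namespace Pool.Agent.EGF.H62

open Pool.Agent.EGF

theorem log16 : Real.log 16 ≤ 3 := by
  have h : (16 : ℝ) = 2 ^ 4 := by norm_num
  rw [h, Real.log_pow]
  have := Real.log_two_lt_d9
  push_cast
  linarith

theorem log_cast_nonneg (n : ℕ) : 0 ≤ Real.log n := Real.log_natCast_nonneg n

theorem log_bound {N a k e : ℕ} (hN : 0 < N) (h : (N : ℝ) ≤ 16 * ((k : ℝ) + 1) ^ e * a) :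
    Real.log N - (3 + e * Real.log (k + 1)) ≤ Real.log a := by
  have hN' : (0 : ℝ) < N := by exact_mod_cast hN
  have hk : (0 : ℝ) < (k : ℝ) + 1 := by positivity
  have ha : (0 : ℝ) < a := by
    have h1 : 0 < 16 * ((k : ℝ) + 1) ^ e * a := lt_of_lt_of_le hN' h
    exact pos_of_mul_pos_right h1 (by positivity)
  have h1 := Real.log_le_log hN' h
  rw [Real.log_mul (by positivity) ha.ne', Real.log_mul (by norm_num) (by positivity),
    Real.log_pow] at h1
  linarith [log16]

theorem cls2 (hOwn : OwnStmt) (hIte : Ite2Stmt) : Cls2Stmt := by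
  intro V _ k c U s s1 j m L L1 θ κ ρ hsym hRec hθ hlogU hL hs hFlat hL1 hs1 hFlat1 h160 hκ hκ200
    hκs hκθ hj hρ hρκ hρs hm hbig h32
  have hs1' : (0 : ℝ) < s1 := by
    have : 0 < s1 := by omega
    exact_mod_cast this
  have hk1 : 0 ≤ Real.log ((k : ℝ) + 1) := Real.log_nonneg (by linarith [Nat.cast_nonneg (α := ℝ) k])
  have hR0 : 0 ≤ 3 + (s1 : ℝ) ^ 2 * Real.log (k + 1) := by positivity
  have hlk := log_cast_nonneg k
  have hls := log_cast_nonneg s
  have h7 : 0 ≤ 7 * (m : ℝ) ^ 2 / ρ ^ 2 := by positivity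
  have hlU : 1024 ≤ Real.log U.card := by linarith
  have hU16 : 16 ≤ U.card := by
    by_contra hcon
    have h1 : U.card ≤ 16 := by omega
    have h2 : Real.log U.card ≤ 3 := by
      rcases Nat.eq_zero_or_pos U.card with h0 | h0
      · rw [h0, Nat.cast_zero, Real.log_zero]
        norm_num
      · have h3 : (U.card : ℝ) ≤ 16 := by exact_mod_cast h1
        exact (Real.log_le_log (by exact_mod_cast h0) h3).trans log16
    linarith
  obtain ⟨A, B, C, hAU, hBU, hdis, hCc, hA, hB, hex⟩ :=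
    hOwn V k c U s1 L1 hsym hFlat1 hL1 hs1 hU16
  have hUpos : 0 < U.card := by omega
  have hUpos' : (0 : ℝ) < U.card := by exact_mod_cast hUpos
  have hne : ∀ S : Finset V, (U.card : ℝ) ≤ 16 * ((k : ℝ) + 1) ^ (s1 ^ 2) * S.card →
      S.Nonempty := by
    intro S hS
    rw [← Finset.card_pos]
    by_contra hcon
    have h0 : S.card = 0 := by omega
    rw [h0, Nat.cast_zero, mul_zero] at hS
    linarith
  have hAn := hne A hA
  have hBn := hne B hB
  have hlog : ∀ S : Finset V, (U.card : ℝ) ≤ 16 * ((k : ℝ) + 1) ^ (s1 ^ 2) * S.card →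
      Real.log U.card - (3 + (s1 : ℝ) ^ 2 * Real.log (k + 1)) ≤ Real.log S.card := by
    intro S hS
    have h1 := log_bound hUpos hS
    push_cast at h1
    exact h1
  have hdens : 160 * L1 / s1 ≤ κ := by
    rw [div_le_iff₀ hs1']
    exact h160
  have hAB : (0 : ℝ) < A.card * B.card := by
    have h1 : (0 : ℝ) < A.card := by exact_mod_cast Finset.card_pos.2 hAn
    have h2 : (0 : ℝ) < B.card := by exact_mod_cast Finset.card_pos.2 hBn
    positivity
  have hex' : ((ex c C A B).card : ℝ) ≤ κ * (A.card * B.card) :=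
    hex.trans (mul_le_mul_of_nonneg_right hdens hAB.le)
  have hCn : C.Nonempty := by
    by_contra hcon
    rw [Finset.not_nonempty_iff_eq_empty] at hcon
    have h1 : ex c C A B = A ×ˢ B := by
      unfold ex
      rw [hcon]
      exact Finset.filter_true_of_mem fun p _ => Finset.notMem_empty _
    rw [h1, Finset.card_product] at hex'
    push_cast at hex'
    nlinarith
  exact hIte V k c C U A B s m j L θ κ ρ (3 + (s1 : ℝ) ^ 2 * Real.log (k + 1)) hsym hRec hθ hlogU
    hL hs hFlat hAU hBU hdis hAn hBn (hlog A hA) (hlog B hB) hex' hκ hκ200 hκs hκθ hρ hρκ hCn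
    (hCc.trans hj) hρs hR0 hm hbig h32

end Pool.Agent.EGF.H62
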