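import Pool.Agent.EGF.StmtsQ

/-!
# Squad EGF, block Q, row SG4 (helper62)
-/

set_option autoImplicit false

open Finset

namespace Pool.Agent.EGF.H62

/-- double counting: if every `T i`, `i ∈ Γ`, has at least `2 β` elements then at least `β` elements
are in at least `(β / |B|) |Γ|` of the `T i` -/
theorem dcount {V I : Type} [DecidableEq V] (B : Finset V) (Γ : Finset I) (T : I → Finset V) (η : ℝ)
    (hΓ : Γ.Nonempty) (hη : 0 ≤ η)
    (hT : ∀ i ∈ Γ, η / 2 * B.card ≤ ((B.filter fun y => y ∈ T i).card : ℝ)) :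
    η / 4 * B.card ≤ ((B.filter fun y =>
      η / 4 * Γ.card ≤ ((Γ.filter fun i => y ∈ T i).card : ℝ)).card : ℝ) := by
  have hΓc : (0 : ℝ) < Γ.card := by exact_mod_cast card_pos.2 hΓ
  set W := B.filter fun y => η / 4 * Γ.card ≤ ((Γ.filter fun i => y ∈ T i).card : ℝ) with hW
  have hdc : ∑ i ∈ Γ, ((B.filter fun y => y ∈ T i).card : ℝ) =
      ∑ y ∈ B, ((Γ.filter fun i => y ∈ T i).card : ℝ) := by
    have : ∑ i ∈ Γ, (B.filter fun y => y ∈ T i).card = ∑ y ∈ B, (Γ.filter fun i => y ∈ T i).card :=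
      by
      simp only [card_eq_sum_ones, sum_filter]
      rw [sum_comm]
    exact_mod_cast this
  have hlow : Γ.card * (η / 2 * B.card) ≤ ∑ i ∈ Γ, ((B.filter fun y => y ∈ T i).card : ℝ) := by
    rw [← nsmul_eq_mul]
    exact Finset.card_nsmul_le_sum Γ _ _ hT
  have hup : ∑ y ∈ B, ((Γ.filter fun i => y ∈ T i).card : ℝ) ≤
      W.card * Γ.card + B.card * (η / 4 * Γ.card) := by
    rw [← sum_filter_add_sum_filter_not B
      (fun y => η / 4 * Γ.card ≤ ((Γ.filter fun i => y ∈ T i).card : ℝ))]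
    apply add_le_add
    · rw [← nsmul_eq_mul]
      apply Finset.sum_le_card_nsmul
      intro y _
      exact_mod_cast card_le_card (filter_subset _ _)
    · have h1 : ∑ y ∈ B.filter (fun y => ¬ η / 4 * Γ.card ≤ ((Γ.filter fun i => y ∈ T i).card : ℝ)),
          ((Γ.filter fun i => y ∈ T i).card : ℝ) ≤
          (B.filter (fun y => ¬ η / 4 * Γ.card ≤
            ((Γ.filter fun i => y ∈ T i).card : ℝ))).card • (η / 4 * Γ.card : ℝ) := by
        apply Finset.sum_le_card_nsmul
        intro y hy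
        rw [mem_filter] at hy
        exact (not_le.1 hy.2).le
      rw [nsmul_eq_mul] at h1
      refine h1.trans ?_
      apply mul_le_mul_of_nonneg_right _ (by positivity)
      exact_mod_cast card_le_card (filter_subset _ _)
  rw [hdc] at hlow
  have h2 : (Γ.card : ℝ) * (η / 4 * B.card) ≤ Γ.card * W.card := by nlinarith
  exact le_of_mul_le_mul_left h2 hΓc

theorem sg4 (hEnt : EntStmt) : Sg4Stmt := by
  intro V _ k c B B0 B1 Bi x0 x' e C1 Γ η lam hB hB0 hB1 hBi hη hη1 hlam hΓ hmiss hT hL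
  have hBc : (0 : ℝ) < B.card := by exact_mod_cast card_pos.2 hB
  have hΓc : (0 : ℝ) < Γ.card := by exact_mod_cast card_pos.2 hΓ
  have hB0c : (B0.card : ℝ) ≤ B.card := by exact_mod_cast card_le_card hB0
  set T : Fin k → Finset V := fun i => B1.filter fun y => c x0 y = e ∧ c (x' i) y = e ∧ y ∈ Bi i
    with hTdef
  have hTc : ∀ i ∈ Γ, η / 2 * B.card ≤ ((B.filter fun y => y ∈ T i).card : ℝ) := by
    intro i hi
    have h1 : al c e B x0 ∩ al c e B (x' i) ∩ Bi i ⊆ (B.filter fun y => y ∈ T i) ∪ (B0 \ B1) := by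
      intro y hy
      unfold al at hy
      rw [mem_inter, mem_inter, mem_filter, mem_filter] at hy
      obtain ⟨⟨⟨hyB, hy1⟩, ⟨_, hy2⟩⟩, hy3⟩ := hy
      rw [mem_union]
      by_cases h : y ∈ B1
      · left
        rw [mem_filter]
        exact ⟨hyB, mem_filter.2 ⟨h, hy1, hy2, hy3⟩⟩
      · right
        exact mem_sdiff.2 ⟨hBi i hy3, h⟩
    have h2 : (al c e B x0 ∩ al c e B (x' i) ∩ Bi i).card ≤
        (B.filter fun y => y ∈ T i).card + (B0 \ B1).card :=
      (card_le_card h1).trans (card_union_le _ _)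
    have h2' : ((al c e B x0 ∩ al c e B (x' i) ∩ Bi i).card : ℝ) ≤
        (B.filter fun y => y ∈ T i).card + (B0 \ B1).card := by exact_mod_cast h2
    have h3 := hT i hi
    have h4 : η / 2 * B0.card ≤ η / 2 * B.card := mul_le_mul_of_nonneg_left hB0c (by positivity)
    linarith
  have hW := dcount B Γ T η hΓ hη.le hTc
  set W0 := B.filter fun y => η / 4 * Γ.card ≤ ((Γ.filter fun i => y ∈ T i).card : ℝ) with hW0
  have hW0pos : (0 : ℝ) < W0.card := by
    have h0 : (0 : ℝ) < η / 4 * B.card := by positivity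
    exact lt_of_lt_of_le h0 hW
  have hW0ne : W0.Nonempty := card_pos.1 (by exact_mod_cast hW0pos)
  have hex : ∀ y ∈ W0, ∃ i ∈ Γ, y ∈ T i := by
    intro y hy
    rw [hW0, mem_filter] at hy
    have h1 : (0 : ℝ) < ((Γ.filter fun i => y ∈ T i).card : ℝ) := by
      have h0 : (0 : ℝ) < η / 4 * Γ.card := by positivity
      exact lt_of_lt_of_le h0 hy.2
    have h2 : (Γ.filter fun i => y ∈ T i).Nonempty := card_pos.1 (by exact_mod_cast h1)
    obtain ⟨i, hi⟩ := h2
    rw [mem_filter] at hi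
    exact ⟨i, hi.1, hi.2⟩
  have hκ : 0 < 4 * (lam / η) := by positivity
  obtain ⟨Z, hZΓ, W, hWW0, hWne, hZc, hWS, hlogW⟩ := hEnt V (Fin k) Γ W0
    (fun i => B.filter fun y => c (x' i) y ∈ C1) (4 * (lam / η)) hκ hW0ne (by
      intro i hi
      have h1 : W0 ⊆ (W0 ∩ B.filter fun y => c (x' i) y ∈ C1) ∪
          (B.filter fun y => c (x' i) y ∉ C1) := by
        intro y hy
        have hyB : y ∈ B := (mem_filter.1 hy).1
        by_cases h : c (x' i) y ∈ C1
        · exact mem_union_left _ (mem_inter.2 ⟨hy, mem_filter.2 ⟨hyB, h⟩⟩)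
        · exact mem_union_right _ (mem_filter.2 ⟨hyB, h⟩)
      have h2 : W0.card ≤ (W0 ∩ B.filter fun y => c (x' i) y ∈ C1).card +
          (B.filter fun y => c (x' i) y ∉ C1).card :=
        (card_le_card h1).trans (card_union_le _ _)
      have h2' : (W0.card : ℝ) ≤ (W0 ∩ B.filter fun y => c (x' i) y ∈ C1).card +
          (B.filter fun y => c (x' i) y ∉ C1).card := by exact_mod_cast h2
      have h3 := hL i hi
      have h4 : lam * B.card ≤ 4 * (lam / η) * W0.card := by
        have h5 : 4 * (lam / η) * (η / 4 * B.card) ≤ 4 * (lam / η) * W0.card :=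
          mul_le_mul_of_nonneg_left hW hκ.le
        have h6 : 4 * (lam / η) * (η / 4 * B.card) = lam * B.card := by
          field_simp
        linarith
      have h7 : (1 - 4 * (lam / η)) * (W0.card : ℝ) = W0.card - 4 * (lam / η) * W0.card := by ring
      rw [h7]
      linarith)
  refine ⟨W, ?_, Z, hZΓ, hWne, ?_, ?_, ?_, ?_, ?_⟩
  · intro y hy
    obtain ⟨i, _, hi⟩ := hex y (hWW0 hy)
    exact (mem_filter.1 hi).1
  · have h8 : 8 * lam / η * (Γ.card : ℝ) = 2 * (4 * (lam / η)) * Γ.card := by ring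
    rw [h8]
    exact hZc
  · have h9 : √(4 * (lam / η)) = 2 * √(lam / η) := by
      rw [Real.sqrt_mul (by norm_num : (0 : ℝ) ≤ 4)]
      have : √(4 : ℝ) = 2 := by
        rw [show (4 : ℝ) = 2 ^ 2 by norm_num]
        exact Real.sqrt_sq (by norm_num)
      rw [this]
    rw [h9] at hlogW
    have h10 : Real.log B.card - Real.log (4 / η) ≤ Real.log W0.card := by
      have h11 : Real.log (η / 4 * B.card) ≤ Real.log W0.card :=
        Real.log_le_log (by positivity) hW
      rw [Real.log_mul (by positivity) hBc.ne'] at h11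
      have h12 : Real.log (4 / η) = - Real.log (η / 4) := by
        rw [← Real.log_inv, inv_div]
      linarith
    linarith
  · intro y hy
    obtain ⟨i, _, hi⟩ := hex y (hWW0 hy)
    exact (mem_filter.1 hi).2.1
  · intro y hy i hi
    exact (mem_filter.1 (hWS i hi hy)).2
  · intro y hy
    have h13 := (mem_filter.1 (hWW0 hy)).2
    refine h13.trans ?_
    have h14 : (Γ.filter fun i => y ∈ T i).card ≤
        (Γ.filter fun i => y ∈ Bi i ∧ c (x' i) y = e).card := by
      apply card_le_card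
      intro i hi
      rw [mem_filter] at hi ⊢
      have h15 := (mem_filter.1 hi.2).2
      exact ⟨hi.1, h15.2.2, h15.2.1⟩
    exact_mod_cast h14

end Pool.Agent.EGF.H62
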