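import Pool.Agent.EGF.StmtsQ

/-!
# Squad EGF, block Q, row SG6 (helper62)
-/

set_option autoImplicit false

open Finset

namespace Pool.Agent.EGF.H62

theorem pal_mono' {V : Type} [DecidableEq V] {k : ℕ} (c : V → V → Fin k) {W U : Finset V}
    (h : W ⊆ U) : pal c W ⊆ pal c U :=
  image_subset_image (filter_subset_filter _ (product_subset_product h h))

theorem star_mono {V : Type} [DecidableEq V] {k : ℕ} (c : V → V → Fin k) {W U : Finset V}
    (h : W ⊆ U) (x : V) : star c W x ⊆ star c U x :=
  image_subset_image (filter_subset_filter _ h)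

theorem sg6 : Sg6Stmt := by
  intro V _ k c U Y Γ Z x' e θ η hRec hθ hYU hY hlog hZ hΓ
  obtain ⟨hUne, hR⟩ := hRec
  obtain ⟨y, hy, hys⟩ := Finset.exists_max_image Y (fun x => (star c Y x).card) hY
  have hsm : smax c Y ≤ (star c Y y).card := Finset.sup_le (fun x hx => hys x hx)
  have h1 := hR Y hYU hY
  have hpal : ((pal c Y).card : ℝ) ≤ (pal c U).card := by
    exact_mod_cast card_le_card (pal_mono' c hYU)
  have hsm' : (smax c Y : ℝ) ≤ (star c Y y).card := by exact_mod_cast hsm
  have hU : ((star c U y).card : ℝ) ≤ smax c U := by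
    have : (star c U y).card ≤ smax c U :=
      Finset.le_sup (f := fun x => (star c U x).card) (hYU hy)
    exact_mod_cast this
  have hsub : star c Y y ⊆ star c U y := star_mono c hYU y
  have hdiff : ((star c U y \ star c Y y).card : ℝ) + (star c Y y).card = (star c U y).card := by
    exact_mod_cast Finset.card_sdiff_add_card_eq_card hsub
  have hlt : ((star c U y \ star c Y y).card : ℝ) < η / 8 * Γ.card := by
    have h2 : θ * ((star c U y \ star c Y y).card : ℝ) < θ * (η / 8 * Γ.card) := by
      have h3 : θ * ((star c U y \ star c Y y).card : ℝ) ≤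
          θ * (((pal c U).card + smax c U) - ((pal c Y).card + smax c Y)) := by
        apply mul_le_mul_of_nonneg_left _ hθ.le
        linarith
      have h4 : θ * (((pal c U).card + smax c U : ℝ) - ((pal c Y).card + smax c Y)) ≤
          Real.log U.card - Real.log Y.card := by
        have h5 : θ * (((pal c U).card + smax c U : ℝ) - ((pal c Y).card + smax c Y)) =
          θ * ((pal c U).card + smax c U) - θ * ((pal c Y).card + smax c Y) := by ring
        rw [h5]
        linarith
      linarith
    exact lt_of_mul_lt_mul_left h2 hθ.le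
  have hF := hΓ y hy
  have hex : ∃ i ∈ Γ.filter fun i => i ∈ star c U y ∧ c (x' i) y = e,
      i ∉ (star c U y \ star c Y y) ∪ Z := by
    by_contra hcon
    push Not at hcon
    have h3 : (Γ.filter fun i => i ∈ star c U y ∧ c (x' i) y = e).card ≤
        (star c U y \ star c Y y).card + Z.card :=
      (card_le_card hcon).trans (card_union_le _ _)
    have h3' : ((Γ.filter fun i => i ∈ star c U y ∧ c (x' i) y = e).card : ℝ) ≤
        (star c U y \ star c Y y).card + Z.card := by exact_mod_cast h3
    linarith
  obtain ⟨i, hiF, hi⟩ := hex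
  rw [mem_filter] at hiF
  obtain ⟨hiΓ, hiU, hie⟩ := hiF
  rw [mem_union, not_or, mem_sdiff] at hi
  obtain ⟨hi1, hi2⟩ := hi
  have hiY : i ∈ star c Y y := by
    by_contra hcon
    exact hi1 ⟨hiU, hcon⟩
  unfold star at hiY
  rw [mem_image] at hiY
  obtain ⟨z, hz, hzi⟩ := hiY
  rw [mem_filter] at hz
  exact ⟨i, mem_sdiff.2 ⟨hiΓ, hi2⟩, y, hy, z, hz.1, fun h => hz.2 h.symm, hzi, hie⟩

end Pool.Agent.EGF.H62
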